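import Mathlib
import Pool.Agent.W761.CP.Defs

/-!
# The three potentials are form bounded and agree where they should (`S_POT`)
-/

set_option autoImplicit false

open MeasureTheory
open scoped ENNReal FourierTransform SchwartzMap InnerProductSpace

namespace Pool.Agent.W999.CP
open Pool.Agent.Helper209.CX (Ed L2d InH1 dirichlet IsHu)
open Pool.Agent.W761.CP

noncomputable section

theorem measurableSet_Gd (d : ℕ) : MeasurableSet (Gd d) := by
  have : IsClosed (Gd d) := by
    have h1 : Gd d = ⋂ k : Fin d, {x : Ed d | 0 ≤ x k ∧ x k ≤ 1} := by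
      ext x
      simp [Gd]
    rw [h1]
    apply isClosed_iInter
    intro k
    have hc : Continuous fun x : Ed d => x k := by fun_prop
    exact (isClosed_le continuous_const hc).inter (isClosed_le hc continuous_const)
  exact this.measurableSet

/-- comparison of form bounded potentials -/
theorem fb_of_le {d : ℕ} {V V' : Ed d → ℂ} (hV : FB V) (hm : Measurable V') (K : ℝ) (hK : 0 ≤ K)
    (hle : ∀ x, ‖V' x‖ ≤ ‖V x‖ + K) : FB V' := by
  obtain ⟨hVm, C, hC, hb⟩ := hV
  refine ⟨hm, C + K, by positivity, ?_⟩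
  intro u g hg
  obtain ⟨hi, hle2⟩ := hb u g hg
  have hu2 : Integrable (fun x => ‖u x‖ ^ 2) (volume : Measure (Ed d)) := by
    have := (Lp.memLp u).integrable_norm_rpow (by norm_num) (by norm_num)
    simpa using this
  have hun : ∫ x, ‖u x‖ ^ 2 = ‖u‖ ^ 2 := by
    have h1 : (⟪u, u⟫_ℂ) = ∫ x, ⟪u x, u x⟫_ℂ := L2.inner_def u u
    have h2 : (⟪u, u⟫_ℂ) = ((‖u‖ ^ 2 : ℝ) : ℂ) := by
      rw [inner_self_eq_norm_sq_to_K]
      simp
    have h3 : ∫ x, ⟪u x, u x⟫_ℂ = ((∫ x, ‖u x‖ ^ 2 : ℝ) : ℂ) := by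
      rw [← integral_complex_ofReal]
      apply integral_congr_ae
      filter_upwards with x
      rw [inner_self_eq_norm_sq_to_K]
      simp
    rw [h2, h3] at h1
    exact_mod_cast h1.symm
  have hi3 : Integrable (fun x => ‖V x‖ * ‖u x‖ ^ 2 + K * ‖u x‖ ^ 2) (volume : Measure (Ed d)) :=
    hi.add (hu2.const_mul K)
  have hptw : ∀ x, ‖V' x‖ * ‖u x‖ ^ 2 ≤ ‖V x‖ * ‖u x‖ ^ 2 + K * ‖u x‖ ^ 2 := by
    intro x
    have := mul_le_mul_of_nonneg_right (hle x) (sq_nonneg ‖u x‖)
    linarith [this]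
  have hi4 : Integrable (fun x => ‖V' x‖ * ‖u x‖ ^ 2) (volume : Measure (Ed d)) := by
    refine hi3.mono' ?_ ?_
    · exact (hm.norm.aestronglyMeasurable).mul
        (((Lp.aestronglyMeasurable u).norm.aemeasurable.pow_const 2).aestronglyMeasurable)
    · filter_upwards with x
      rw [Real.norm_of_nonneg (by positivity)]
      exact hptw x
  refine ⟨hi4, ?_⟩
  calc ∫ x, ‖V' x‖ * ‖u x‖ ^ 2 ≤ ∫ x, (‖V x‖ * ‖u x‖ ^ 2 + K * ‖u x‖ ^ 2) :=
        integral_mono hi4 hi3 hptw
    _ = (∫ x, ‖V x‖ * ‖u x‖ ^ 2) + K * ∫ x, ‖u x‖ ^ 2 := by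
        rw [integral_add hi (hu2.const_mul K), integral_const_mul]
    _ ≤ C * (‖u‖ ^ 2 + ∑ k, ‖g k‖ ^ 2) + K * ‖u‖ ^ 2 := by
        rw [hun]
        linarith
    _ ≤ (C + K) * (‖u‖ ^ 2 + ∑ k, ‖g k‖ ^ 2) := by
        have : 0 ≤ ∑ k, ‖g k‖ ^ 2 := Finset.sum_nonneg fun k _ => by positivity
        nlinarith [mul_nonneg hK this]

/-- the form integrand is integrable -/
theorem integrable_form {d : ℕ} {V : Ed d → ℂ} (hV : FB V) {u φ : L2d d} {g g' : Fin d → L2d d}
    (hu : IsGrad u g) (hφ : IsGrad φ g') :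
    Integrable (fun x => V x * u x * (starRingEnd ℂ) (φ x)) (volume : Measure (Ed d)) := by
  obtain ⟨hVm, C, hC, hb⟩ := hV
  have h1 := (hb u g hu).1
  have h2 := (hb φ g' hφ).1
  refine (h1.add h2).mono' ?_ ?_
  · refine (hVm.aestronglyMeasurable.mul (Lp.aestronglyMeasurable u)).mul ?_
    exact (Lp.aestronglyMeasurable φ).star
  · filter_upwards with x
    simp only [Pi.add_apply]
    rw [norm_mul, norm_mul, RCLike.norm_conj]
    have h3 : ‖u x‖ * ‖φ x‖ ≤ ‖u x‖ ^ 2 + ‖φ x‖ ^ 2 := by
      nlinarith [sq_nonneg (‖u x‖ - ‖φ x‖), sq_nonneg ‖u x‖, sq_nonneg ‖φ x‖]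
    have := mul_le_mul_of_nonneg_left h3 (norm_nonneg (V x))
    linarith [this]

/-- values of `mulR` -/
theorem mulR_coe {d : ℕ} {χ : Ed d → ℝ} (hχ : Continuous χ) (K : ℝ) (hb : ∀ x, |χ x| ≤ K)
    (u : L2d d) : (fun x => mulR χ u x) =ᵐ[volume] fun x => (χ x : ℂ) * u x := by
  have hK : MemLp (fun x => (χ x : ℂ) * u x) 2 (volume : Measure (Ed d)) := by
    refine MemLp.of_le_mul (g := fun x => u x) (c := K) (Lp.memLp u) ?_ ?_
    · exact ((Complex.continuous_ofReal.comp hχ).aestronglyMeasurable).mul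
        (Lp.aestronglyMeasurable u)
    · filter_upwards with x
      rw [norm_mul]
      refine mul_le_mul_of_nonneg_right ?_ (norm_nonneg _)
      rw [Complex.norm_real]
      exact hb x
  unfold mulR
  rw [dif_pos hK]
  exact hK.coeFn_toLp

theorem measurable_VV {d : ℕ} {W : Ed d → ℝ} (hW : Measurable W) : Measurable (VV W) := by
  classical
  unfold VV
  refine (Complex.measurable_ofReal.comp hW).add ?_
  exact Measurable.ite (measurableSet_Gd d) measurable_const measurable_const

theorem measurable_of_wall {d : ℕ} {W : Ed d → ℝ} (hW : Wall W) : Measurable W := by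
  have h := hW.fb.1
  exact Complex.measurable_re.comp h

theorem pot : S_POT := by
  classical
  intro d W M χ b φ a hW hM hL
  have hWm := measurable_of_wall hW
  have hχc : Continuous χ := hL.χm.smooth.continuous
  have hχb : ∀ x, |χ x| ≤ 1 := fun x => by
    rw [abs_of_nonneg (hL.χ0 x)]
    exact hL.χ1 x
  have hχ'c : Continuous fun x => 1 - χ x := continuous_const.sub hχc
  have hχ'b : ∀ x, |1 - χ x| ≤ 1 := fun x => by
    rw [abs_of_nonneg (by linarith [hL.χ1 x])]
    linarith [hL.χ0 x]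
  have hVVm : Measurable (VV W) := measurable_VV hWm
  have hWn : ∀ x, ‖((W x : ℝ) : ℂ)‖ = W x := fun x => by
    rw [Complex.norm_real, Real.norm_of_nonneg (hW.nonneg x)]
  have hVVn : ∀ x, ‖VV W x‖ ≤ ‖((W x : ℝ) : ℂ)‖ + 1 := by
    intro x
    unfold VV
    refine (norm_add_le _ _).trans ?_
    split_ifs <;> simp
  have hVV : FB (VV W) := fb_of_le hW.fb hVVm 1 (by norm_num) hVVn
  have hVin : FB (Vin W M χ) := by
    refine fb_of_le hW.fb ?_ M hM.le ?_
    · unfold Vin
      refine Measurable.ite ?_ (Complex.measurable_ofReal.comp hWm) measurable_const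
      exact (measurableSet_eq_fun hχc.measurable measurable_const).compl
    · intro x
      unfold Vin
      split_ifs
      · linarith
      · rw [Complex.norm_real, Real.norm_of_nonneg hM.le]
        linarith [norm_nonneg ((W x : ℝ) : ℂ)]
  have hVout : FB (Vout W M χ) := by
    refine fb_of_le hW.fb ?_ (M + 1) (by linarith) ?_
    · unfold Vout
      refine Measurable.ite ?_ measurable_const hVVm
      exact measurableSet_eq_fun hχc.measurable measurable_const
    · intro x
      unfold Vout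
      split_ifs
      · rw [Complex.norm_real, Real.norm_of_nonneg hM.le]
        linarith [norm_nonneg ((W x : ℝ) : ℂ)]
      · linarith [hVVn x]
  refine ⟨hVV, hVin, hVout, ?_, ?_, ?_⟩
  · intro h u f
    set v : L2d d := mulR χ u with hv
    have hve := mulR_coe hχc 1 hχb u
    have key : ∀ (g : Fin d → L2d d), IsGrad v g → ∀ (ψ : L2d d) (g' : Fin d → L2d d),
        IsGrad ψ g' → ∫ x, VV W x * v x * (starRingEnd ℂ) (ψ x) =
          (∫ x, Vin W M χ x * v x * (starRingEnd ℂ) (ψ x)) + ⟪ψ, Complex.I • v⟫_ℂ := by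
      intro g hg ψ g' hg'
      have hi := integrable_form hVin hg hg'
      rw [L2.inner_def, ← integral_add hi (L2.integrable_inner ψ (Complex.I • v))]
      apply integral_congr_ae
      filter_upwards [hve, Lp.coeFn_smul Complex.I v] with x hx1 hx2
      rw [RCLike.inner_apply, hx2]
      simp only [Pi.smul_apply, smul_eq_mul]
      by_cases hx : χ x = 0
      · have : v x = 0 := by
          rw [hv, hx1, hx]
          simp
        rw [this]
        simp
      · have hG := hL.χG x hx
        unfold VV Vin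
        rw [if_pos hG, if_pos hx]
        ring
    constructor
    · rintro ⟨g, hg, hall⟩
      refine ⟨g, hg, ?_⟩
      intro ψ g' hg'
      have h1 := hall ψ g' hg'
      rw [key g hg ψ g' hg'] at h1
      rw [inner_sub_right, ← h1]
      ring
    · rintro ⟨g, hg, hall⟩
      refine ⟨g, hg, ?_⟩
      intro ψ g' hg'
      have h1 := hall ψ g' hg'
      rw [inner_sub_right] at h1
      rw [key g hg ψ g' hg', ← add_assoc, h1]
      ring
  · intro h u f
    set v : L2d d := mulR (fun x => 1 - χ x) u with hv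
    have hve := mulR_coe hχ'c 1 hχ'b u
    have key : ∀ (ψ : L2d d), ∫ x, VV W x * v x * (starRingEnd ℂ) (ψ x) =
          ∫ x, Vout W M χ x * v x * (starRingEnd ℂ) (ψ x) := by
      intro ψ
      apply integral_congr_ae
      filter_upwards [hve] with x hx1
      by_cases hx : χ x = 1
      · have : v x = 0 := by
          rw [hv, hx1, hx]
          simp
        rw [this]
        simp
      · unfold Vout
        rw [if_neg hx]
    unfold Hu
    simp only [key]
  · intro u
    have h1 := mulR_coe hχc 1 hχb u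
    have h2 := mulR_coe hχ'c 1 hχ'b u
    apply Lp.ext
    filter_upwards [h1, h2, Lp.coeFn_add (mulR χ u) (mulR (fun x => 1 - χ x) u)] with x hx1 hx2 hx3
    rw [hx3, Pi.add_apply, hx1, hx2]
    push_cast
    ring

end

end Pool.Agent.W999.CP
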